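import Mathlib

/-!
VC-dimension of generalized progressions in groups: definitions.
-/

set_option autoImplicit false

namespace Pool.Agent.VCNil

/-- The set system `S` shatters the finite set `Y`: every `B ⊆ Y` is of the form `T ∩ Y` with
`T ∈ S`. -/
def Shatters {X : Type*} (S : Set (Set X)) (Y : Finset X) : Prop :=
  ∀ B : Set X, B ⊆ (Y : Set X) → ∃ T ∈ S, T ∩ (Y : Set X) = B

/-- The VC-dimension of a set system: the supremum of `|Y|` over the finite sets `Y` it shatters,
the value `∞` being allowed. -/
noncomputable def vcDim {X : Type*} (S : Set (Set X)) : ℕ∞ :=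
  ⨆ (Y : Finset X) (_ : Shatters S Y), (Y.card : ℕ∞)

/-- The family of left translates `g A`, `g ∈ G`. -/
def leftTranslates {G : Type*} [Group G] (A : Set G) : Set (Set G) :=
  Set.range (fun g : G => (fun x : G => g * x) '' A)

/-- The value in `G` of a word: a word is a list of letters `(i, ε)`, the letter `(i, true)`
standing for `a i` and `(i, false)` for `(a i)⁻¹`; the value is the product in order. -/
def wordVal {G : Type*} [Group G] {k : ℕ} (a : Fin k → G) (w : List (Fin k × Bool)) : G :=
  (w.map (fun l => if l.2 then a l.1 else (a l.1)⁻¹)).prod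

/-- The generalized progression `P(a, N)` of rank `k`: values of the words in which, for every
`i`, the letters `(i, true)` and `(i, false)` together occur at most `N i` times. -/
def genProg {G : Type*} [Group G] {k : ℕ} (a : Fin k → G) (N : Fin k → ℕ) : Set G :=
  {g : G | ∃ w : List (Fin k × Bool),
    (∀ i : Fin k, w.countP (fun l => decide (l.1 = i)) ≤ N i) ∧ wordVal a w = g}

end Pool.Agent.VCNil
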