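import Mathlib

/-!
A pair `(M, α)` with many independent scales: the windows `(w n, h n)`, `n < K`, read arbitrary
bits of suitable integers `Y`.
-/

set_option autoImplicit false

namespace Pool.Agent.VCNil

/-- `Hit M α w h Y`: some `z` with `0 ≤ z < w` has `α z + M m - Y ∈ [0, h]` for an integer `m`. -/
def Hit (M α w h : ℕ) (Y : ℤ) : Prop :=
  ∃ z : ℕ, z < w ∧ ∃ m : ℤ, 0 ≤ (α : ℤ) * z + M * m - Y ∧ (α : ℤ) * z + M * m - Y ≤ h

theorem exists_scales (K : ℕ) :
    ∃ M α : ℕ, 2 ≤ M ∧ Nat.Coprime α M ∧ ∃ w h : ℕ → ℕ, ∀ b : ℕ → Prop, ∃ Y : ℤ,
      ∀ n < K, (Hit M α (w n) (h n) Y ↔ b n) := by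
  induction K with
  | zero =>
    refine ⟨2, 1, le_refl _, by norm_num, fun _ => 0, fun _ => 0, fun b => ⟨0, ?_⟩⟩
    intro n hn
    omega
  | succ K ih =>
    obtain ⟨M, α, hM, hcop, w, h, hY⟩ := ih
    -- an upper bound for the old windows
    obtain ⟨W, hW⟩ : ∃ W : ℕ, ∀ n < K, w n ≤ W := by
      refine ⟨∑ n ∈ Finset.range K, w n, fun n hn => ?_⟩
      exact Finset.single_le_sum (f := w) (fun i _ => Nat.zero_le _) (Finset.mem_range.2 hn)
    set L : ℕ := M * (W + 1) with hL
    have hLW : W + M ≤ L := by
      rw [hL]
      nlinarith
    have hMpos : 0 < M := by omega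
    have hLpos : 0 < L := by omega
    refine ⟨L * M, L * α + 1, ?_, ?_, fun n => if n < K then w n else L,
      fun n => if n < K then L * (h n + 1) else 0, ?_⟩
    · nlinarith
    · -- coprimality
      have h1 : Nat.Coprime (L * α + 1) L := by
        simp [Nat.coprime_mul_left_add_left]
      have h2 : Nat.Coprime (L * α + 1) M := Nat.Coprime.coprime_dvd_right (Dvd.intro _ hL.symm) h1
      exact Nat.Coprime.mul_right h1 h2
    · intro b
      obtain ⟨Y, hYb⟩ := hY b
      -- solve `α y ≡ c` modulo `M`
      have hsolve : ∀ c : ℤ, ∃ y : ℕ, W ≤ y ∧ y < L ∧ ∃ m : ℤ, (α : ℤ) * y + M * m = c := by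
        intro c
        have hg : (α : ℤ) * Nat.gcdA α M + M * Nat.gcdB α M = 1 := by
          have := Nat.gcd_eq_gcd_ab α M
          rw [hcop] at this
          push_cast at this
          linarith
        set y0 : ℤ := Nat.gcdA α M * c with hy0
        have hMz : (0 : ℤ) < M := by exact_mod_cast hMpos
        have hmod0 := Int.emod_nonneg (y0 - W) (ne_of_gt hMz)
        have hmod1 := Int.emod_lt_of_pos (y0 - W) hMz
        have hdm := Int.emod_add_mul_ediv (y0 - W) M
        refine ⟨W + ((y0 - W) % M).toNat, by omega, ?_, ?_⟩
        · have : (((y0 - W) % M).toNat : ℤ) = (y0 - W) % M := Int.toNat_of_nonneg hmod0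
          omega
        · refine ⟨Nat.gcdB α M * c + α * ((y0 - W) / M), ?_⟩
          push_cast
          rw [Int.toNat_of_nonneg hmod0]
          have h3 : (y0 - W) % M = (y0 - W) - M * ((y0 - W) / M) := by linarith
          rw [h3]
          have h4 : (α : ℤ) * (W + ((y0 - W) - M * ((y0 - W) / M))) +
              M * (Nat.gcdB α M * c + α * ((y0 - W) / M)) =
              α * y0 + M * Nat.gcdB α M * c := by ring
          rw [h4, hy0]
          linear_combination c * hg
      classical
      obtain ⟨y, hy1, hy2, m0, hm0⟩ := hsolve (if b K then Y - 1 else Y - 2)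
      refine ⟨L * (Y - 1) + y, ?_⟩
      intro n hn
      have hLz : (0 : ℤ) < L := by exact_mod_cast hLpos
      have hy2z : (y : ℤ) < L := by exact_mod_cast hy2
      by_cases hnK : n < K
      · -- an old scale
        simp only [hnK, if_true]
        rw [← hYb n hnK]
        unfold Hit
        apply exists_congr
        intro z
        apply and_congr_right
        intro hz
        apply exists_congr
        intro m
        have hzy : (z : ℤ) < y := by
          have : z < y := lt_of_lt_of_le hz (le_trans (hW n hnK) hy1)
          exact_mod_cast this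
        have hz0 : (0 : ℤ) ≤ z := Int.natCast_nonneg z
        have key : ((L * α + 1 : ℕ) : ℤ) * z + ((L * M : ℕ) : ℤ) * m - (L * (Y - 1) + y) =
            L * ((α : ℤ) * z + M * m - Y + 1) - (y - z) := by
          push_cast
          ring
        rw [key]
        set δ : ℤ := (α : ℤ) * z + M * m - Y with hδ
        constructor
        · rintro ⟨h1, h2⟩
          constructor
          · by_contra hcon
            have : δ + 1 ≤ 0 := by omega
            nlinarith
          · by_contra hcon
            have h3 : (h n : ℤ) + 1 ≤ δ := by omega
            have h4 : (L : ℤ) * (h n + 1 + 1) ≤ L * (δ + 1) :=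
              mul_le_mul_of_nonneg_left (by linarith) hLz.le
            push_cast at h2
            nlinarith
        · rintro ⟨h1, h2⟩
          constructor
          · have h4 : (L : ℤ) * 1 ≤ L * (δ + 1) :=
              mul_le_mul_of_nonneg_left (by linarith) hLz.le
            linarith
          · have h4 : (L : ℤ) * (δ + 1) ≤ L * (h n + 1) :=
              mul_le_mul_of_nonneg_left (by linarith) hLz.le
            push_cast
            linarith
      · -- the new scale
        have hnK' : n = K := by omega
        subst hnK'
        simp only [lt_irrefl, if_false]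
        constructor
        · rintro ⟨z, hz, m, h1, h2⟩
          by_contra hb
          rw [if_neg hb] at hm0
          have hzL : (z : ℤ) < L := by exact_mod_cast hz
          have hz0 : (0 : ℤ) ≤ z := Int.natCast_nonneg z
          have hy0 : (0 : ℤ) ≤ y := Int.natCast_nonneg y
          have heq : ((L * α + 1 : ℕ) : ℤ) * z + ((L * M : ℕ) : ℤ) * m - (L * (Y - 1) + y) = 0 := by
            push_cast at h2 ⊢
            push_cast at h1
            linarith
          have heq2 : (L : ℤ) * ((α : ℤ) * z + M * m - Y + 1) = y - z := by
            push_cast at heq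
            linarith
          set e : ℤ := (α : ℤ) * z + M * m - Y + 1 with he
          have he0 : e = 0 := by
            by_contra hne
            rcases lt_or_gt_of_ne hne with h3 | h3
            · have : e ≤ -1 := by omega
              nlinarith
            · have : 1 ≤ e := by omega
              nlinarith
          rw [he0] at heq2
          have hzy : (z : ℤ) = y := by linarith
          rw [hzy] at he
          -- `α y + M m = Y - 1` and `α y + M m0 = Y - 2`
          have h5 : (M : ℤ) * (m - m0) = 1 := by
            have : (α : ℤ) * y + M * m - Y + 1 = 0 := by rw [← he]; exact he0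
            linarith
          have h6 : (M : ℤ) ∣ 1 := ⟨_, h5.symm⟩
          have h7 : (M : ℤ) ≤ 1 := Int.le_of_dvd one_pos h6
          omega
        · intro hb
          rw [if_pos hb] at hm0
          refine ⟨y, hy2, m0, ?_, ?_⟩
          · push_cast
            have : ((L : ℤ) * α + 1) * y + L * M * m0 - (L * (Y - 1) + y) = 0 := by
              linear_combination (L : ℤ) * hm0
            linarith
          · push_cast
            have : ((L : ℤ) * α + 1) * y + L * M * m0 - (L * (Y - 1) + y) = 0 := by
              linear_combination (L : ℤ) * hm0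
            linarith

end Pool.Agent.VCNil
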