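import Pool.Agent.Lib.MP_19d06a_co.Defs

/-!
Generalized progressions in commutative groups.
-/

set_option autoImplicit false

namespace Pool.Agent.VCNil

section comm

variable {G : Type*} [CommGroup G] {k : ℕ}

lemma wordVal_nil (a : Fin k → G) : wordVal a [] = 1 := by simp [wordVal]

lemma wordVal_cons (a : Fin k → G) (l : Fin k × Bool) (w : List (Fin k × Bool)) :
    wordVal a (l :: w) = (if l.2 then a l.1 else (a l.1)⁻¹) * wordVal a w := by
  simp [wordVal]

lemma wordVal_append (a : Fin k → G) (w v : List (Fin k × Bool)) :
    wordVal a (w ++ v) = wordVal a w * wordVal a v := by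
  simp [wordVal]

lemma exists_exponents (a : Fin k → G) (w : List (Fin k × Bool)) :
    ∃ n : Fin k → ℤ, (∀ i, (n i).natAbs ≤ w.countP (fun l => decide (l.1 = i))) ∧
      ∏ i, a i ^ n i = wordVal a w := by
  induction w with
  | nil => exact ⟨fun _ => 0, by simp, by simp [wordVal_nil]⟩
  | cons l w ih =>
    obtain ⟨n, hn, hprod⟩ := ih
    refine ⟨fun i => (if l.1 = i then (if l.2 then 1 else -1) else 0) + n i, ?_, ?_⟩
    · intro i
      have h := hn i
      by_cases hi : l.1 = i
      · rw [List.countP_cons_of_pos (by simpa using hi)]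
        rcases Bool.eq_false_or_eq_true l.2 with h2 | h2 <;> simp only [hi, h2, if_true] <;>
          simp <;> omega
      · rw [List.countP_cons_of_neg (by simpa using hi)]
        simp [hi, h]
    · rw [wordVal_cons, ← hprod]
      simp only [zpow_add, Finset.prod_mul_distrib]
      congr 1
      rw [Finset.prod_eq_single l.1]
      · rcases Bool.eq_false_or_eq_true l.2 with h2 | h2 <;> simp [h2]
      · intro j _ hj
        simp [Ne.symm hj]
      · intro h
        exact absurd (Finset.mem_univ _) h

lemma wordVal_replicate (a : Fin k → G) (j : Fin k) (z : ℤ) :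
    wordVal a (List.replicate z.natAbs (j, decide (0 ≤ z))) = a j ^ z := by
  rcases Int.natAbs_eq z with h | h
  · have hz : 0 ≤ z := by omega
    simp only [wordVal, List.map_replicate, List.prod_replicate, hz, decide_true, if_true]
    rw [← zpow_natCast]
    congr 1
    omega
  · by_cases hz : 0 ≤ z
    · have h0 : z = 0 := by omega
      subst h0
      simp [wordVal]
    · simp only [wordVal, List.map_replicate, List.prod_replicate, hz, decide_false]
      simp only [Bool.false_eq_true, if_false, inv_pow]
      rw [← zpow_natCast, ← zpow_neg]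
      congr 1
      omega

lemma exists_word (a : Fin k → G) (n : Fin k → ℤ) (s : Finset (Fin k)) :
    ∃ w : List (Fin k × Bool),
      (∀ i, w.countP (fun l => decide (l.1 = i)) ≤ (n i).natAbs) ∧
      (∀ i, i ∉ s → w.countP (fun l => decide (l.1 = i)) = 0) ∧
      wordVal a w = ∏ i ∈ s, a i ^ n i := by
  classical
  induction s using Finset.induction_on with
  | empty => exact ⟨[], by simp, by simp, by simp [wordVal_nil]⟩
  | insert j s hj ih =>
    obtain ⟨w, h1, h2, h3⟩ := ih
    refine ⟨List.replicate (n j).natAbs (j, decide (0 ≤ n j)) ++ w, ?_, ?_, ?_⟩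
    · intro i
      rw [List.countP_append, List.countP_replicate]
      by_cases hij : j = i
      · subst hij
        simp [h2 j hj]
      · simp only [hij, decide_false, Bool.false_eq_true, if_false, zero_add]
        exact h1 i
    · intro i hi
      rw [List.countP_append, List.countP_replicate]
      rw [Finset.mem_insert, not_or] at hi
      have hij : ¬ j = i := fun h => hi.1 h.symm
      simp only [hij, decide_false, Bool.false_eq_true, if_false, zero_add]
      exact h2 i hi.2
    · rw [wordVal_append, wordVal_replicate, h3, Finset.prod_insert hj]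

/-- In a commutative group the generalized progression is the set of products `∏ a_i ^ n_i` with
`|n_i| ≤ N_i`. -/
theorem mem_genProg_iff (a : Fin k → G) (N : Fin k → ℕ) (g : G) :
    g ∈ genProg a N ↔ ∃ n : Fin k → ℤ, (∀ i, (n i).natAbs ≤ N i) ∧ ∏ i, a i ^ n i = g := by
  constructor
  · rintro ⟨w, hw, rfl⟩
    obtain ⟨n, hn, hprod⟩ := exists_exponents a w
    exact ⟨n, fun i => le_trans (hn i) (hw i), hprod⟩
  · rintro ⟨n, hn, rfl⟩
    obtain ⟨w, h1, -, h3⟩ := exists_word a n Finset.univ
    exact ⟨w, fun i => le_trans (h1 i) (hn i), h3⟩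

/-- Adding trivial generators does not change a progression. -/
theorem genProg_append (a : Fin k → G) (N : Fin k → ℕ) (j : ℕ) :
    genProg (Fin.append a (fun _ : Fin j => (1 : G))) (Fin.append N (fun _ : Fin j => 0)) =
      genProg a N := by
  ext g
  rw [mem_genProg_iff, mem_genProg_iff]
  constructor
  · rintro ⟨n, hn, hprod⟩
    refine ⟨fun i => n (Fin.castAdd j i), fun i => ?_, ?_⟩
    · have := hn (Fin.castAdd j i)
      simpa using this
    · rw [Fin.prod_univ_add] at hprod
      simpa using hprod
  · rintro ⟨n, hn, hprod⟩
    refine ⟨Fin.append n (fun _ => 0), fun i => ?_, ?_⟩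
    · refine Fin.addCases (fun i => ?_) (fun i => ?_) i
      · simpa using hn i
      · simp
    · rw [Fin.prod_univ_add]
      simpa using hprod

end comm

end Pool.Agent.VCNil
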