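import Pool.Agent.Lib.MP_19d06a_co.Scales
import Pool.Agent.Lib.MP_19d06a_co.Words

/-!
Progressions of rank 5 in `ℤ × ℤ × ℤ` whose families of translates have arbitrarily large
VC-dimension.
-/

set_option autoImplicit false

namespace Pool.Agent.VCNil

open Multiplicative

/-- The five generators `(1, α, α)`, `(0, M, M)` and the three unit vectors. -/
def gens (M α : ℕ) : Fin 5 → Multiplicative (ℤ × ℤ × ℤ) :=
  ![ofAdd ((1 : ℤ), ((α : ℤ), (α : ℤ))), ofAdd ((0 : ℤ), ((M : ℤ), (M : ℤ))),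
    ofAdd ((1 : ℤ), ((0 : ℤ), (0 : ℤ))), ofAdd ((0 : ℤ), ((1 : ℤ), (0 : ℤ))),
    ofAdd ((0 : ℤ), ((0 : ℤ), (1 : ℤ)))]

lemma prod_gens (M α : ℕ) (n : Fin 5 → ℤ) :
    ∏ i, gens M α i ^ n i =
      ofAdd ((n 0 + n 2 : ℤ), ((α * n 0 + M * n 1 + n 3 : ℤ), (α * n 0 + M * n 1 + n 4 : ℤ))) := by
  rw [Fin.prod_univ_five]
  simp only [gens, ← ofAdd_zsmul, ← ofAdd_add, Matrix.cons_val]
  congr 1
  ext
  · simp
  · simp
    ring
  · simp
    ring

lemma mem_genProg_gens (M α N : ℕ) (v1 v2 v3 : ℤ) :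
    (ofAdd (v1, (v2, v3)) : Multiplicative (ℤ × ℤ × ℤ)) ∈ genProg (gens M α) (fun _ => N) ↔
      ∃ z m : ℤ, z.natAbs ≤ N ∧ m.natAbs ≤ N ∧ (v1 - z).natAbs ≤ N ∧
        (v2 - (α * z + M * m)).natAbs ≤ N ∧ (v3 - (α * z + M * m)).natAbs ≤ N := by
  rw [mem_genProg_iff]
  constructor
  · rintro ⟨n, hn, hprod⟩
    rw [prod_gens] at hprod
    have h := ofAdd.injective hprod
    simp only [Prod.mk.injEq] at h
    obtain ⟨h1, h2, h3⟩ := h
    refine ⟨n 0, n 1, hn 0, hn 1, ?_, ?_, ?_⟩
    · have : v1 - n 0 = n 2 := by linarith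
      rw [this]
      exact hn 2
    · have : v2 - (α * n 0 + M * n 1) = n 3 := by linarith
      rw [this]
      exact hn 3
    · have : v3 - (α * n 0 + M * n 1) = n 4 := by linarith
      rw [this]
      exact hn 4
  · rintro ⟨z, m, h1, h2, h3, h4, h5⟩
    refine ⟨![z, m, v1 - z, v2 - (α * z + M * m), v3 - (α * z + M * m)], ?_, ?_⟩
    · intro i
      fin_cases i
      · exact h1
      · exact h2
      · exact h3
      · exact h4
      · exact h5
    · rw [prod_gens]
      simp

/-- The window lemma: for large `N`, membership in the progression of suitable points reads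
`Hit`. -/
lemma window {M α N w h : ℕ} {Y : ℤ} (hM : 0 < M) (hN : w + h + α * w + Y.natAbs ≤ N) :
    (ofAdd ((w - 1 - 2 * N : ℤ), ((Y + N - α * N : ℤ), (Y + h - N - α * N : ℤ))) :
      Multiplicative (ℤ × ℤ × ℤ)) ∈ genProg (gens M α) (fun _ => N) ↔ Hit M α w h Y := by
  rw [mem_genProg_gens]
  constructor
  · rintro ⟨z, m, h1, h2, h3, h4, h5⟩
    refine ⟨(z + N).toNat, by omega, m, ?_, ?_⟩
    · have hz : (((z + N).toNat : ℕ) : ℤ) = z + N := Int.toNat_of_nonneg (by omega)
      rw [hz, mul_add]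
      omega
    · have hz : (((z + N).toNat : ℕ) : ℤ) = z + N := Int.toNat_of_nonneg (by omega)
      rw [hz, mul_add]
      omega
  · rintro ⟨z, hz, m, h1, h2⟩
    have hαz : (α : ℤ) * z ≤ α * w := by
      have : (z : ℤ) ≤ w := by exact_mod_cast hz.le
      exact mul_le_mul_of_nonneg_left this (Int.natCast_nonneg α)
    have hαz0 : 0 ≤ (α : ℤ) * z := by positivity
    have hNz : (w : ℤ) + h + α * w + Y.natAbs ≤ N := by exact_mod_cast hN
    have hMm : (M * m).natAbs ≤ N := by omega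
    have hm : m.natAbs ≤ N := by
      rw [Int.natAbs_mul, Int.natAbs_natCast] at hMm
      calc m.natAbs = 1 * m.natAbs := (one_mul _).symm
        _ ≤ M * m.natAbs := Nat.mul_le_mul_right _ hM
        _ ≤ N := hMm
    have hαw0 : 0 ≤ (α : ℤ) * w := by positivity
    refine ⟨z - N, m, by omega, hm, by omega, ?_, ?_⟩
    · rw [mul_sub]
      omega
    · rw [mul_sub]
      omega

lemma mem_leftTranslate {G : Type*} [Group G] (P : Set G) (g x : G) :
    x ∈ (fun y : G => g * y) '' P ↔ g⁻¹ * x ∈ P := by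
  constructor
  · rintro ⟨y, hy, rfl⟩
    simpa using hy
  · intro h
    exact ⟨g⁻¹ * x, h, by simp⟩

/-- For every `d` there is a progression of rank `5` in `ℤ × ℤ × ℤ` whose translates shatter a
set with `d` elements. -/
theorem exists_shattered (d : ℕ) :
    ∃ (a : Fin 5 → Multiplicative (ℤ × ℤ × ℤ)) (N : Fin 5 → ℕ)
      (Y : Finset (Multiplicative (ℤ × ℤ × ℤ))), Y.card = d ∧
        Shatters (leftTranslates (genProg a N)) Y := by
  classical
  set K : ℕ := Fintype.card (Finset (Fin d)) with hK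
  let e : Finset (Fin d) ≃ Fin K := Fintype.equivFin (Finset (Fin d))
  obtain ⟨M, α, hM, -, w, h, hY⟩ := exists_scales K
  choose Yf hYf using hY
  let b : Fin d → ℕ → Prop := fun i n => ∃ A : Finset (Fin d), (e A).val = n ∧ i ∈ A
  let Y : Fin d → ℤ := fun i => Yf (b i)
  have hhit : ∀ (i : Fin d) (A : Finset (Fin d)),
      Hit M α (w (e A).val) (h (e A).val) (Y i) ↔ i ∈ A := by
    intro i A
    rw [hYf (b i) (e A).val (e A).isLt]
    constructor
    · rintro ⟨A', hA', hi⟩
      have : A' = A := e.injective (Fin.ext hA')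
      rwa [← this]
    · intro hi
      exact ⟨A, rfl, hi⟩
  -- a large bound
  set N : ℕ := (∑ n ∈ Finset.range K, (w n + h n + α * w n)) + ∑ i, (Y i).natAbs with hNdef
  have hN : ∀ (i : Fin d) (A : Finset (Fin d)),
      w (e A).val + h (e A).val + α * w (e A).val + (Y i).natAbs ≤ N := by
    intro i A
    have h1 : w (e A).val + h (e A).val + α * w (e A).val ≤
        ∑ n ∈ Finset.range K, (w n + h n + α * w n) :=
      Finset.single_le_sum (f := fun n => w n + h n + α * w n) (fun _ _ => Nat.zero_le _)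
        (Finset.mem_range.2 (e A).isLt)
    have h2 : (Y i).natAbs ≤ ∑ i, (Y i).natAbs :=
      Finset.single_le_sum (f := fun i => (Y i).natAbs) (fun _ _ => Nat.zero_le _)
        (Finset.mem_univ i)
    omega
  let pt : Fin d → Multiplicative (ℤ × ℤ × ℤ) := fun i => ofAdd ((0 : ℤ), (Y i, Y i))
  have hinj : Function.Injective pt := by
    intro i j hij
    have hYij : Y i = Y j := by
      have := ofAdd.injective hij
      simp only [Prod.mk.injEq] at this
      exact this.2.1
    have h1 := (hhit i {i}).2 (Finset.mem_singleton_self i)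
    rw [hYij] at h1
    have h2 := (hhit j {i}).1 h1
    exact (Finset.mem_singleton.1 h2).symm
  refine ⟨gens M α, fun _ => N, Finset.univ.image pt, ?_, ?_⟩
  · rw [Finset.card_image_of_injective _ hinj]
    simp
  · intro B hB
    set A : Finset (Fin d) := Finset.univ.filter (fun i => pt i ∈ B) with hA
    set wA : ℕ := w (e A).val
    set hA' : ℕ := h (e A).val
    let g : Multiplicative (ℤ × ℤ × ℤ) :=
      ofAdd ((-(wA - 1 - 2 * N) : ℤ), ((-(N - α * N) : ℤ), (-(hA' - N - α * N) : ℤ)))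
    refine ⟨_, ⟨g, rfl⟩, ?_⟩
    have key : ∀ i, pt i ∈ (fun y : Multiplicative (ℤ × ℤ × ℤ) => g * y) ''
        genProg (gens M α) (fun _ => N) ↔ pt i ∈ B := by
      intro i
      rw [mem_leftTranslate]
      have heq : g⁻¹ * pt i = (ofAdd ((wA - 1 - 2 * N : ℤ), ((Y i + N - α * N : ℤ),
          (Y i + hA' - N - α * N : ℤ))) : Multiplicative (ℤ × ℤ × ℤ)) := by
        simp only [g, pt, ← ofAdd_neg, ← ofAdd_add]
        congr 1
        ext
        · simp
        · simp
          ring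
        · simp
          ring
      rw [heq, window (by omega) (hN i A), hhit i A, hA]
      simp
    ext x
    constructor
    · rintro ⟨hx1, hx2⟩
      have hx2' : x ∈ Finset.univ.image pt := hx2
      obtain ⟨i, -, rfl⟩ := Finset.mem_image.1 hx2'
      exact (key i).1 hx1
    · intro hx
      have hx2 : x ∈ ((Finset.univ.image pt : Finset (Multiplicative (ℤ × ℤ × ℤ))) : Set _) :=
        hB hx
      have hx2' : x ∈ Finset.univ.image pt := hx2
      obtain ⟨i, -, rfl⟩ := Finset.mem_image.1 hx2'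
      exact ⟨(key i).2 hx, hx2⟩

/-- VC-dimension is at least the size of a shattered set. -/
lemma le_vcDim {X : Type*} {S : Set (Set X)} {Y : Finset X} (h : Shatters S Y) :
    (Y.card : ℕ∞) ≤ vcDim S := by
  unfold vcDim
  exact le_iSup₂_of_le Y h le_rfl

theorem unbounded_rank_five (d : ℕ) :
    ∃ (a : Fin 5 → Multiplicative (ℤ × ℤ × ℤ)) (N : Fin 5 → ℕ),
      (d : ℕ∞) ≤ vcDim (leftTranslates (genProg a N)) := by
  obtain ⟨a, N, Y, hcard, hsh⟩ := exists_shattered d
  exact ⟨a, N, by rw [← hcard]; exact le_vcDim hsh⟩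

theorem unbounded_rank_ge_five {k : ℕ} (hk : 5 ≤ k) (d : ℕ) :
    ∃ (a : Fin k → Multiplicative (ℤ × ℤ × ℤ)) (N : Fin k → ℕ),
      (d : ℕ∞) ≤ vcDim (leftTranslates (genProg a N)) := by
  obtain ⟨j, rfl⟩ := Nat.exists_eq_add_of_le hk
  obtain ⟨a, N, h⟩ := unbounded_rank_five d
  refine ⟨Fin.append a (fun _ : Fin j => 1), Fin.append N (fun _ : Fin j => 0), ?_⟩
  rw [genProg_append]
  exact h

end Pool.Agent.VCNil
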